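import Mathlib

/-!
# Project AL: an algorithm for the quartics

The double coverings `D_d : b M² - A e² = d x²`, `b M² - B e² = b d y²` of the quartic
`N² = b M⁴ - (A + B) M² e² + (A B / b) e⁴`. Finite tests for the existence of local points.
-/

set_option autoImplicit false

namespace Pool.Agent.TH841.AL

/-- the covering `D_d` has a point over `K` -/
def Cov (K : Type) [Field K] (A B b d : ℤ) : Prop := ∃ M e x y : K, (M ≠ 0 ∨ e ≠ 0) ∧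
  (b : K) * M ^ 2 - (A : K) * e ^ 2 = (d : K) * x ^ 2 ∧
  (b : K) * M ^ 2 - (B : K) * e ^ 2 = (b : K) * d * y ^ 2

/-- the finite test at the real place -/
def RealSol (A B b d : ℤ) : Prop := ∃ s r : ℕ, s ≤ A.natAbs + B.natAbs + 1 ∧ r ≤ b.natAbs + 1 ∧
  (s ≠ 0 ∨ r ≠ 0) ∧ 0 ≤ d * (b * s - A * r) ∧ 0 ≤ b * d * (b * s - B * r)

/-- primitive solutions of the equations of `D_d` modulo `m` -/
def ModSol (A B b d : ℤ) (m : ℕ) : Prop := ∃ M e x y : ℕ, M < m ∧ e < m ∧ x < m ∧ y < m ∧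
  Nat.gcd (Nat.gcd M e) (Nat.gcd (Nat.gcd x y) m) = 1 ∧
  (m : ℤ) ∣ b * M ^ 2 - A * e ^ 2 - d * x ^ 2 ∧ (m : ℤ) ∣ b * M ^ 2 - B * e ^ 2 - b * d * y ^ 2

/-- AL-RL: the real place. -/
def RL : Prop := ∀ A B b d : ℤ, b ≠ 0 → d ≠ 0 → (Cov ℝ A B b d ↔ RealSol A B b d)

/-- AL-CP: compactness. -/
def CP : Prop := ∀ (p : ℕ) [Fact p.Prime] (A B b d : ℤ), b ≠ 0 → d ≠ 0 →
  ¬ Cov ℚ_[p] A B b d → ∃ k : ℕ, ¬ ModSol A B b d (p ^ k)

/-- AL-SC: rational points give solutions modulo `m`. -/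
def SC : Prop := ∀ (A B b d : ℤ) (m : ℕ), 0 < m → b ≠ 0 → d ≠ 0 → Cov ℚ A B b d →
  ModSol A B b d m

/-- AL-MN: divisors of the modulus. -/
def MN : Prop := ∀ (A B b d : ℤ) (m n : ℕ), m ∣ n → 0 < n → ModSol A B b d n → ModSol A B b d m

end Pool.Agent.TH841.AL
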