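import Mathlib
import Pool.Agent.TH841.AL.Stm
import Pool.Agent.TH841.FD.Main3
import Pool.Agent.TH841.FD.BM
import Pool.Agent.W405.SE.GoodP
import Pool.Agent.W407.SE.Ratp

/-!
# Project AL: soundness and completeness of the finite checks
-/

set_option autoImplicit false

namespace Pool.Agent.TH841.AL

open Finset

open Pool.Agent.TH841.NO (SQ Qu)

open Pool.Agent.TH841.FD (LF lift_rat cov_map COVL val_of_cov)

/-- the finite check -/
def Check (A B b : ℤ) (m : ℕ) : Prop := ∀ d : ℤ, Squarefree d → d ∣ 2 * A * B * (A - B) →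
  ¬ RealSol A B b d ∨ ¬ ModSol A B b d m

lemma sqf_dvd {d n : ℤ} (hd : Squarefree d) (h : ∀ p : ℕ, p.Prime → (p : ℤ) ∣ d → (p : ℤ) ∣ n) :
    d ∣ n := by
  rw [← Int.natAbs_dvd_natAbs, ← Nat.prod_primeFactors_of_squarefree
    (Int.squarefree_natAbs.2 hd)]
  refine Finset.prod_primes_dvd _ (fun p hp => (Nat.prime_of_mem_primeFactors hp).prime)
    fun p hp => ?_
  have h1 := Nat.dvd_of_mem_primeFactors hp
  have h2 := h p (Nat.prime_of_mem_primeFactors hp) (Int.natCast_dvd.2 h1)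
  exact Int.natCast_dvd.1 h2

/-- **soundness** -/
theorem sound (hcov : COVL) (hrl : RL) (hsc : SC) {A B b : ℤ} (hA : A ≠ 0) (hB : B ≠ 0)
    (hAB : A ≠ B) (hb : Squarefree b) (hd : b ∣ A * B) {m : ℕ} (hm : 0 < m)
    (h : Check A B b m) : ¬ Qu ℚ (-(A + B)) (A * B) b := by
  intro hq
  obtain ⟨d, hds, hc⟩ := lift_rat hAB hb.ne_zero hd hq
  have hdd : d ∣ 2 * A * B * (A - B) := by
    refine sqf_dvd hds fun p hp hpd => ?_
    by_contra hcon
    haveI : Fact p.Prime := ⟨hp⟩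
    have h1 := (hcov A B b d hA hB hAB hb.ne_zero hds.ne_zero).2 p
      (cov_map (Rat.castHom ℚ_[p]) hc)
    exact ((Pool.Agent.W405.SE.goodp_of Pool.Agent.W407.SE.ratp) p A B b d hcon hb hds h1).2 hpd
  rcases h d hds hdd with h1 | h1
  · exact h1 ((hrl A B b d hb.ne_zero hds.ne_zero).1 (cov_map (Rat.castHom ℝ) hc))
  · exact h1 (hsc A B b d m hm hb.ne_zero hds.ne_zero hc)

lemma qu_of_cov {K : Type} [Field K] [CharZero K] {A B b d : ℤ} (hb : b ≠ 0) (hd : b ∣ A * B)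
    (hd0 : d ≠ 0) (h : FD.Cov K A B b d) : Qu K (-(A + B)) (A * B) b := by
  obtain ⟨P, _⟩ := val_of_cov hb hd hd0 h
  exact ⟨P.N, P.M, P.e, P.ne, P.eq⟩

/-- **completeness** -/
theorem complete (hrl : RL) (hcp : CP) (hmn : MN) {A B b : ℤ} (hA : A ≠ 0) (hB : B ≠ 0)
    (hAB : A ≠ B) (hb : Squarefree b) (hd : b ∣ A * B) (h : b ∉ LF A B) :
    ∃ m : ℕ, 0 < m ∧ Check A B b m := by
  classical
  have hn : 2 * A * B * (A - B) ≠ 0 :=
    mul_ne_zero (mul_ne_zero (mul_ne_zero two_ne_zero hA) hB) (sub_ne_zero.2 hAB)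
  have key : ∀ d : ℤ, ∃ m : ℕ, 0 < m ∧ (Squarefree d → ¬ RealSol A B b d ∨ ¬ ModSol A B b d m) := by
    intro d
    by_cases hds : Squarefree d
    swap
    · exact ⟨1, one_pos, fun h' => absurd h' hds⟩
    have h1 : ¬ (FD.Cov ℝ A B b d ∧ ∀ (p : ℕ) [Fact p.Prime], FD.Cov ℚ_[p] A B b d) := by
      rintro ⟨h2, h3⟩
      exact h ⟨⟨hb, hd, qu_of_cov hb.ne_zero hd hds.ne_zero h2,
        fun p _ => qu_of_cov hb.ne_zero hd hds.ne_zero (h3 p)⟩, d, hds, h2, h3⟩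
    by_cases h2 : FD.Cov ℝ A B b d
    · have h3 : ¬ ∀ (p : ℕ) [Fact p.Prime], FD.Cov ℚ_[p] A B b d := fun h' => h1 ⟨h2, h'⟩
      push Not at h3
      obtain ⟨p, hp, h4⟩ := h3
      obtain ⟨k, hk⟩ := hcp p A B b d hb.ne_zero hds.ne_zero h4
      exact ⟨p ^ k, pow_pos hp.out.pos k, fun _ => Or.inr hk⟩
    · refine ⟨1, one_pos, fun _ => Or.inl fun h' => h2 ?_⟩
      exact (hrl A B b d hb.ne_zero hds.ne_zero).2 h'
  choose m hm1 hm2 using key
  set S : Finset ℤ := (Icc (-(|2 * A * B * (A - B)|)) (|2 * A * B * (A - B)|)) with hS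
  refine ⟨∏ d ∈ S, m d, prod_pos fun d _ => hm1 d, fun d hds hdd => ?_⟩
  have hdS : d ∈ S := by
    have h1 : |d| ≤ |2 * A * B * (A - B)| := Int.le_of_dvd (abs_pos.2 hn) ((abs_dvd_abs _ _).2 hdd)
    exact mem_Icc.2 (abs_le.1 h1)
  rcases hm2 d hds with h1 | h1
  · exact Or.inl h1
  · exact Or.inr fun h2 => h1 (hmn A B b d (m d) _ (dvd_prod_of_mem m hdS)
      (prod_pos fun d _ => hm1 d) h2)

end Pool.Agent.TH841.AL
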