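import Mathlib
import Pool.Agent.TH841.AL.Main
import Pool.Agent.W960.GA.Comp
import Pool.Agent.Helper566.FD.J7

/-!
# Project AL: the checks are computable
-/

set_option autoImplicit false

namespace Pool.Agent.TH841.AL

open Pool.Agent.Helper446 Pool.Agent.W960.GA

section

variable {α : Type} [Primcodable α]

@[local fun_prop] theorem ciadd {f g : α → ℤ} (hf : Computable f) (hg : Computable g) :
    Computable (fun x => f x + g x) :=
  Pool.Agent.Helper566.FD.J7.prim_int_add.to_comp.comp hf hg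

@[local fun_prop] theorem cisub {f g : α → ℤ} (hf : Computable f) (hg : Computable g) :
    Computable (fun x => f x - g x) :=
  Pool.Agent.Helper566.FD.J7.prim_int_sub.to_comp.comp hf hg

@[local fun_prop] theorem cimul {f g : α → ℤ} (hf : Computable f) (hg : Computable g) :
    Computable (fun x => f x * g x) :=
  Pool.Agent.Helper566.FD.J7.prim_int_mul.to_comp.comp hf hg

@[local fun_prop] theorem cineg {f : α → ℤ} (hf : Computable f) :
    Computable (fun x => - f x) :=
  Pool.Agent.Helper566.FD.J7.prim_int_neg.to_comp.comp hf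

@[local fun_prop] theorem cicast {f : α → ℕ} (hf : Computable f) :
    Computable (fun x => (f x : ℤ)) :=
  Pool.Agent.Helper566.FD.J7.prim_natCast.to_comp.comp hf

@[local fun_prop] theorem citoNat {f : α → ℤ} (hf : Computable f) :
    Computable (fun x => (f x).toNat) :=
  Pool.Agent.Helper566.FD.J7.prim_toNat.to_comp.comp hf

@[local fun_prop] theorem cinatAbs {f : α → ℤ} (hf : Computable f) :
    Computable (fun x => (f x).natAbs) := by
  have h : Computable (fun x => (f x).toNat + (- f x).toNat) := by fun_prop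
  refine h.of_eq fun x => ?_
  omega

attribute [local fun_prop] cmod

theorem cp_ile {f g : α → ℤ} (hf : Computable f) (hg : Computable g) :
    ComputablePred fun x => f x ≤ g x := by
  refine cp_of_iff (RE.cp_eq (f := fun x => (f x - g x).toNat) (g := fun _ => 0) (by fun_prop)
    (by fun_prop)) fun x => ?_
  omega

theorem cp_dvd {f g : α → ℕ} (hf : Computable f) (hg : Computable g) :
    ComputablePred fun x => f x ∣ g x := by
  refine cp_of_iff (RE.cp_eq (f := fun x => g x % f x) (g := fun _ => 0) (by fun_prop)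
    (by fun_prop)) fun x => ?_
  exact Nat.dvd_iff_mod_eq_zero

theorem cp_idvd {f : α → ℕ} {g : α → ℤ} (hf : Computable f) (hg : Computable g) :
    ComputablePred fun x => ((f x : ℕ) : ℤ) ∣ g x := by
  refine cp_of_iff (cp_dvd hf (cinatAbs hg)) fun x => ?_
  exact Int.natCast_dvd

theorem cp_or {p q : α → Prop} (hp : ComputablePred p) (hq : ComputablePred q) :
    ComputablePred fun a => p a ∨ q a :=
  cp_of_iff (cp_not (cp_and (cp_not hp) (cp_not hq))) fun a => by tauto

theorem cp_sqf {f : α → ℕ} (hf : Computable f) : ComputablePred fun x => Squarefree (f x) := by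
  have h : ComputablePred fun x => ∀ k < f x + 1, (k * k ∣ f x → k = 1) := by
    refine cp_all_lt (p := fun x k => (k * k ∣ f x → k = 1)) ?_ (by fun_prop)
    exact cp_imp (cp_dvd (by fun_prop) (by fun_prop)) (RE.cp_eq (by fun_prop) (by fun_prop))
  refine cp_of_iff h fun x => ?_
  constructor
  · intro hs k _ hk
    exact Nat.isUnit_iff.1 (hs k hk)
  · intro hs
    by_cases h0 : f x = 0
    · have := hs 0 (by omega) (by simp [h0])
      omega
    · intro k hk
      have h1 : k ≤ f x := (Nat.le_mul_self k).trans (Nat.le_of_dvd (Nat.pos_of_ne_zero h0) hk)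
      exact Nat.isUnit_iff.2 (hs k (by omega) hk)

/-! ### The test modulo `m` -/

/-- the matrix of the test -/
def Q0 (A B b d : ℤ) (m M e x y : ℕ) : Prop :=
  (∀ k < m + 1, (k ∣ M ∧ k ∣ e ∧ k ∣ x ∧ k ∣ y ∧ k ∣ m) → k = 1) ∧
  (m : ℤ) ∣ b * (M * M) - A * (e * e) - d * (x * x) ∧
  (m : ℤ) ∣ b * (M * M) - B * (e * e) - b * d * (y * y)

theorem cp_Q0 {A B b d : α → ℤ} {m M e x y : α → ℕ} (hA : Computable A) (hB : Computable B)
    (hb : Computable b) (hd : Computable d) (hm : Computable m) (hM : Computable M)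
    (he : Computable e) (hx : Computable x) (hy : Computable y) :
    ComputablePred fun a => Q0 (A a) (B a) (b a) (d a) (m a) (M a) (e a) (x a) (y a) := by
  unfold Q0
  refine cp_and ?_ (cp_and (cp_idvd (by fun_prop) (by fun_prop))
    (cp_idvd (by fun_prop) (by fun_prop)))
  refine cp_all_lt (p := fun a k => (k ∣ M a ∧ k ∣ e a ∧ k ∣ x a ∧ k ∣ y a ∧ k ∣ m a) → k = 1) ?_
    (by fun_prop)
  exact cp_imp (cp_and (cp_dvd (by fun_prop) (by fun_prop)) (cp_and (cp_dvd (by fun_prop)
    (by fun_prop)) (cp_and (cp_dvd (by fun_prop) (by fun_prop)) (cp_and (cp_dvd (by fun_prop)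
    (by fun_prop)) (cp_dvd (by fun_prop) (by fun_prop)))))) (RE.cp_eq (by fun_prop) (by fun_prop))

theorem cp_Q1 {A B b d : α → ℤ} {m M e x : α → ℕ} (hA : Computable A) (hB : Computable B)
    (hb : Computable b) (hd : Computable d) (hm : Computable m) (hM : Computable M)
    (he : Computable e) (hx : Computable x) :
    ComputablePred fun a => ∃ y < m a,
      Q0 (A a) (B a) (b a) (d a) (m a) (M a) (e a) (x a) y := by
  refine cp_ex_lt (p := fun a y => Q0 (A a) (B a) (b a) (d a) (m a) (M a) (e a) (x a) y) ?_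
    hm
  apply cp_Q0 <;> fun_prop

theorem cp_Q2 {A B b d : α → ℤ} {m M e : α → ℕ} (hA : Computable A) (hB : Computable B)
    (hb : Computable b) (hd : Computable d) (hm : Computable m) (hM : Computable M)
    (he : Computable e) :
    ComputablePred fun a => ∃ x < m a, ∃ y < m a,
      Q0 (A a) (B a) (b a) (d a) (m a) (M a) (e a) x y := by
  refine cp_ex_lt (p := fun a x => ∃ y < m a, Q0 (A a) (B a) (b a) (d a) (m a) (M a) (e a) x y) ?_
    hm
  apply cp_Q1 <;> fun_prop

theorem cp_Q3 {A B b d : α → ℤ} {m M : α → ℕ} (hA : Computable A) (hB : Computable B)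
    (hb : Computable b) (hd : Computable d) (hm : Computable m) (hM : Computable M) :
    ComputablePred fun a => ∃ e < m a, ∃ x < m a, ∃ y < m a,
      Q0 (A a) (B a) (b a) (d a) (m a) (M a) e x y := by
  refine cp_ex_lt (p := fun a e => ∃ x < m a, ∃ y < m a,
    Q0 (A a) (B a) (b a) (d a) (m a) (M a) e x y) ?_ hm
  apply cp_Q2 <;> fun_prop

theorem cp_Q4 {A B b d : α → ℤ} {m : α → ℕ} (hA : Computable A) (hB : Computable B)
    (hb : Computable b) (hd : Computable d) (hm : Computable m) :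
    ComputablePred fun a => ∃ M < m a, ∃ e < m a, ∃ x < m a, ∃ y < m a,
      Q0 (A a) (B a) (b a) (d a) (m a) M e x y := by
  refine cp_ex_lt (p := fun a M => ∃ e < m a, ∃ x < m a, ∃ y < m a,
    Q0 (A a) (B a) (b a) (d a) (m a) M e x y) ?_ hm
  apply cp_Q3 <;> fun_prop

lemma gcd_iff {M e x y m : ℕ} (hm : 0 < m) :
    Nat.gcd (Nat.gcd M e) (Nat.gcd (Nat.gcd x y) m) = 1 ↔
      ∀ k < m + 1, (k ∣ M ∧ k ∣ e ∧ k ∣ x ∧ k ∣ y ∧ k ∣ m) → k = 1 := by
  constructor
  · rintro h k _ ⟨h1, h2, h3, h4, h5⟩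
    have h6 : k ∣ Nat.gcd (Nat.gcd M e) (Nat.gcd (Nat.gcd x y) m) :=
      Nat.dvd_gcd (Nat.dvd_gcd h1 h2) (Nat.dvd_gcd (Nat.dvd_gcd h3 h4) h5)
    rw [h] at h6
    exact Nat.dvd_one.1 h6
  · intro h
    set g := Nat.gcd (Nat.gcd M e) (Nat.gcd (Nat.gcd x y) m) with hg
    have h1 : g ∣ Nat.gcd M e := Nat.gcd_dvd_left _ _
    have h2 : g ∣ Nat.gcd (Nat.gcd x y) m := Nat.gcd_dvd_right _ _
    have h3 : g ∣ m := h2.trans (Nat.gcd_dvd_right _ _)
    have h4 : g ∣ Nat.gcd x y := h2.trans (Nat.gcd_dvd_left _ _)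
    exact h g (by have := Nat.le_of_dvd hm h3; omega) ⟨h1.trans (Nat.gcd_dvd_left _ _),
      h1.trans (Nat.gcd_dvd_right _ _), h4.trans (Nat.gcd_dvd_left _ _),
      h4.trans (Nat.gcd_dvd_right _ _), h3⟩

theorem cp_modSol {A B b d : α → ℤ} {m : α → ℕ} (hA : Computable A) (hB : Computable B)
    (hb : Computable b) (hd : Computable d) (hm : Computable m) :
    ComputablePred fun a => ModSol (A a) (B a) (b a) (d a) (m a) := by
  refine cp_of_iff (cp_Q4 hA hB hb hd hm) fun a => ?_
  unfold ModSol Q0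
  constructor
  · rintro ⟨M, e, x, y, h1, h2, h3, h4, h5, h6, h7⟩
    refine ⟨M, h1, e, h2, x, h3, y, h4, (gcd_iff (by omega)).1 h5, ?_, ?_⟩
    · have e1 : b a * ((M : ℤ) * M) - A a * (e * e) - d a * (x * x) =
        b a * (M : ℤ) ^ 2 - A a * e ^ 2 - d a * x ^ 2 := by ring
      rw [e1]
      exact h6
    · have e1 : b a * ((M : ℤ) * M) - B a * (e * e) - b a * d a * (y * y) =
        b a * (M : ℤ) ^ 2 - B a * e ^ 2 - b a * d a * y ^ 2 := by ring
      rw [e1]
      exact h7
  · rintro ⟨M, h1, e, h2, x, h3, y, h4, h5, h6, h7⟩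
    refine ⟨M, e, x, y, h1, h2, h3, h4, (gcd_iff (by omega)).2 h5, ?_, ?_⟩
    · have e1 : b a * ((M : ℤ) * M) - A a * (e * e) - d a * (x * x) =
        b a * (M : ℤ) ^ 2 - A a * e ^ 2 - d a * x ^ 2 := by ring
      rw [← e1]
      exact h6
    · have e1 : b a * ((M : ℤ) * M) - B a * (e * e) - b a * d a * (y * y) =
        b a * (M : ℤ) ^ 2 - B a * e ^ 2 - b a * d a * y ^ 2 := by ring
      rw [← e1]
      exact h7

/-! ### The real test -/

/-- the matrix of the real test -/
def R0 (A B b d : ℤ) (s r : ℕ) : Prop :=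
  (¬ s = 0 ∨ ¬ r = 0) ∧ 0 ≤ d * (b * s - A * r) ∧ 0 ≤ b * d * (b * s - B * r)

theorem cp_R0 {A B b d : α → ℤ} {s r : α → ℕ} (hA : Computable A) (hB : Computable B)
    (hb : Computable b) (hd : Computable d) (hs : Computable s) (hr : Computable r) :
    ComputablePred fun a => R0 (A a) (B a) (b a) (d a) (s a) (r a) := by
  unfold R0
  refine cp_and (cp_or (cp_not (RE.cp_eq hs (by fun_prop))) (cp_not (RE.cp_eq hr (by fun_prop))))
    (cp_and (cp_ile (by fun_prop) (by fun_prop)) (cp_ile (by fun_prop) (by fun_prop)))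

theorem cp_R1 {A B b d : α → ℤ} {s : α → ℕ} (hA : Computable A) (hB : Computable B)
    (hb : Computable b) (hd : Computable d) (hs : Computable s) :
    ComputablePred fun a => ∃ r < (b a).natAbs + 2, R0 (A a) (B a) (b a) (d a) (s a) r := by
  refine cp_ex_lt (p := fun a r => R0 (A a) (B a) (b a) (d a) (s a) r) ?_ (by fun_prop)
  apply cp_R0 <;> fun_prop

theorem cp_realSol {A B b d : α → ℤ} (hA : Computable A) (hB : Computable B)
    (hb : Computable b) (hd : Computable d) :
    ComputablePred fun a => RealSol (A a) (B a) (b a) (d a) := by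
  have h : ComputablePred fun a => ∃ s < (A a).natAbs + (B a).natAbs + 2,
      ∃ r < (b a).natAbs + 2, R0 (A a) (B a) (b a) (d a) s r := by
    refine cp_ex_lt (p := fun a s => ∃ r < (b a).natAbs + 2, R0 (A a) (B a) (b a) (d a) s r) ?_
      (by fun_prop)
    apply cp_R1 <;> fun_prop
  refine cp_of_iff h fun a => ?_
  unfold RealSol R0
  constructor
  · rintro ⟨s, r, h1, h2, h3, h4, h5⟩
    exact ⟨s, by omega, r, by omega, h3, h4, h5⟩
  · rintro ⟨s, h1, r, h2, h3, h4, h5⟩
    exact ⟨s, r, by omega, by omega, h3, h4, h5⟩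

/-! ### The check -/

/-- one divisor -/
def Ob (A B b d : ℤ) (m : ℕ) : Prop := ¬ RealSol A B b d ∨ ¬ ModSol A B b d m

theorem cp_Ob {A B b d : α → ℤ} {m : α → ℕ} (hA : Computable A) (hB : Computable B)
    (hb : Computable b) (hd : Computable d) (hm : Computable m) :
    ComputablePred fun a => Ob (A a) (B a) (b a) (d a) (m a) :=
  cp_or (cp_not (cp_realSol hA hB hb hd)) (cp_not (cp_modSol hA hB hb hd hm))

theorem cp_check {A B b : α → ℤ} {m : α → ℕ} (hA : Computable A) (hB : Computable B)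
    (hb : Computable b) (hm : Computable m) :
    ComputablePred fun a => 2 * A a * B a * (A a - B a) ≠ 0 ∧ Check (A a) (B a) (b a) (m a) := by
  have h : ComputablePred fun a => ¬ (2 * A a * B a * (A a - B a)).natAbs = 0 ∧
      ∀ D < (2 * A a * B a * (A a - B a)).natAbs + 1,
      (Squarefree D ∧ D ∣ (2 * A a * B a * (A a - B a)).natAbs) →
      (Ob (A a) (B a) (b a) (D : ℤ) (m a) ∧ Ob (A a) (B a) (b a) (-(D : ℤ)) (m a)) := by
    refine cp_and (cp_not (RE.cp_eq (by fun_prop) (by fun_prop))) ?_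
    refine cp_all_lt (p := fun a D => (Squarefree D ∧
      D ∣ (2 * A a * B a * (A a - B a)).natAbs) →
      (Ob (A a) (B a) (b a) (D : ℤ) (m a) ∧ Ob (A a) (B a) (b a) (-(D : ℤ)) (m a))) ?_
      (by fun_prop)
    refine cp_imp (cp_and (cp_sqf (by fun_prop)) (cp_dvd (by fun_prop) (by fun_prop)))
      (cp_and ?_ ?_)
    · apply cp_Ob <;> fun_prop
    · apply cp_Ob <;> fun_prop
  refine cp_of_iff h fun a => ?_
  set n := 2 * A a * B a * (A a - B a) with hn
  constructor
  · rintro ⟨h1, h2⟩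
    refine ⟨by simpa using h1, fun D hD => ?_⟩
    rintro ⟨h3, h4⟩
    have h5 : (D : ℤ) ∣ n := Int.natCast_dvd.2 h4
    exact ⟨h2 D (Int.squarefree_natCast.2 h3) h5,
      h2 (-(D : ℤ)) (by rw [← Int.squarefree_natAbs, Int.natAbs_neg, Int.natAbs_natCast]; exact h3)
        (neg_dvd.2 h5)⟩
  · rintro ⟨h1, h2⟩
    refine ⟨by simpa using h1, fun d hd hdn => ?_⟩
    have h3 : d.natAbs ∣ n.natAbs := Int.natAbs_dvd_natAbs.2 hdn
    have h4 := Nat.le_of_dvd (Nat.pos_of_ne_zero h1) h3
    obtain ⟨h5, h6⟩ := h2 d.natAbs (by omega) ⟨Int.squarefree_natAbs.2 hd, h3⟩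
    rcases Int.natAbs_eq d with h7 | h7
    · rw [h7]
      exact h5
    · rw [h7]
      exact h6

end

end Pool.Agent.TH841.AL
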