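import Mathlib
import Pool.Agent.TH841.AL.Stm

set_option autoImplicit false

namespace Pool.Agent.TH841.AL.CPf

open Filter Topology

theorem cp : Pool.Agent.TH841.AL.CP := by
  intro p hp A B b d hb hd hno
  by_contra hcon
  push Not at hcon
  apply hno
  choose M e x y _ _ _ _ hg h1 h2 using hcon
  let v : ℕ → ℤ_[p] × ℤ_[p] × ℤ_[p] × ℤ_[p] := fun k => ((M k : ℤ_[p]), (e k : ℤ_[p]), (x k : ℤ_[p]), (y k : ℤ_[p]))
  obtain ⟨a, φ, hφ, ha⟩ := CompactSpace.tendsto_subseq v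
  let f : ℤ_[p] × ℤ_[p] × ℤ_[p] × ℤ_[p] → ℤ_[p] := fun w => (b : ℤ_[p]) * w.1 ^ 2 - (A : ℤ_[p]) * w.2.1 ^ 2 - (d : ℤ_[p]) * w.2.2.1 ^ 2
  let g : ℤ_[p] × ℤ_[p] × ℤ_[p] × ℤ_[p] → ℤ_[p] := fun w => (b : ℤ_[p]) * w.1 ^ 2 - (B : ℤ_[p]) * w.2.1 ^ 2 - (b : ℤ_[p]) * d * w.2.2.2 ^ 2
  have hf : Continuous f := by fun_prop
  have hgc : Continuous g := by fun_prop
  have hp1 : 1 < (p : ℝ) := by exact_mod_cast hp.out.one_lt
  have hlim0 : Tendsto (fun k : ℕ => (p : ℝ) ^ (-(φ k : ℤ))) atTop (𝓝 0) := by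
    have h3 : Tendsto (fun k : ℕ => ((p : ℝ)⁻¹) ^ k) atTop (𝓝 0) :=
      tendsto_pow_atTop_nhds_zero_of_lt_one (by positivity) (inv_lt_one_of_one_lt₀ hp1)
    have h4 := h3.comp hφ.tendsto_atTop
    refine h4.congr fun k => ?_
    simp [zpow_neg]
  have key : ∀ F : ℤ_[p] × ℤ_[p] × ℤ_[p] × ℤ_[p] → ℤ_[p], Continuous F →
      (∀ k, ‖F (v k)‖ ≤ (p : ℝ) ^ (-(k : ℤ))) → F a = 0 := by
    intro F hF hk
    have h3 : Tendsto (fun k => ‖F (v (φ k))‖) atTop (𝓝 ‖F a‖) :=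
      ((hF.tendsto a).comp ha).norm
    have h4 : Tendsto (fun k => ‖F (v (φ k))‖) atTop (𝓝 0) :=
      squeeze_zero (fun k => norm_nonneg _) (fun k => hk (φ k)) hlim0
    exact norm_eq_zero.1 (tendsto_nhds_unique h3 h4)
  have e1 : f a = 0 := key f hf fun k => by
    have h3 : f (v k) = ((b * (M k : ℤ) ^ 2 - A * (e k : ℤ) ^ 2 - d * (x k : ℤ) ^ 2 : ℤ) : ℤ_[p]) := by
      simp only [f, v]; push_cast; ring
    rw [h3, PadicInt.norm_int_le_pow_iff_dvd]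
    exact_mod_cast h1 k
  have e2 : g a = 0 := key g hgc fun k => by
    have h3 : g (v k) = ((b * (M k : ℤ) ^ 2 - B * (e k : ℤ) ^ 2 - b * d * (y k : ℤ) ^ 2 : ℤ) : ℤ_[p]) := by
      simp only [g, v]; push_cast; ring
    rw [h3, PadicInt.norm_int_le_pow_iff_dvd]
    exact_mod_cast h2 k
  have hne : a ≠ 0 := by
    intro h0
    have h3 : Tendsto (fun k => ‖v (φ k)‖) atTop (𝓝 ‖a‖) := (continuous_norm.tendsto a).comp ha
    rw [h0, norm_zero] at h3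
    have h4 : ∀ᶠ k in atTop, ‖v (φ k)‖ < 1 := h3.eventually (gt_mem_nhds one_pos)
    obtain ⟨k, hk1, hk2⟩ := (h4.and (eventually_ge_atTop 1)).exists
    have hk3 : 1 ≤ φ k := hk2.trans (hφ.id_le k)
    have hd : ∀ n : ℕ, ‖(n : ℤ_[p])‖ < 1 → p ∣ n := fun n hn => by
      have h5 := (PadicInt.norm_int_lt_one_iff_dvd (p := p) (n : ℤ)).1 (by simpa using hn)
      exact_mod_cast h5
    have h6 : ‖(M (φ k) : ℤ_[p])‖ < 1 := lt_of_le_of_lt (norm_fst_le (v (φ k))) hk1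
    have h7 : ‖(v (φ k)).2‖ < 1 := lt_of_le_of_lt (norm_snd_le (v (φ k))) hk1
    have h8 : ‖(e (φ k) : ℤ_[p])‖ < 1 := lt_of_le_of_lt (norm_fst_le (v (φ k)).2) h7
    have h9 : ‖(v (φ k)).2.2‖ < 1 := lt_of_le_of_lt (norm_snd_le (v (φ k)).2) h7
    have h10 : ‖(x (φ k) : ℤ_[p])‖ < 1 := lt_of_le_of_lt (norm_fst_le (v (φ k)).2.2) h9
    have h11 : ‖(y (φ k) : ℤ_[p])‖ < 1 := lt_of_le_of_lt (norm_snd_le (v (φ k)).2.2) h9
    have h12 : p ∣ 1 := by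
      rw [← hg (φ k)]
      refine Nat.dvd_gcd (Nat.dvd_gcd (hd _ h6) (hd _ h8)) (Nat.dvd_gcd (Nat.dvd_gcd (hd _ h10) (hd _ h11)) ?_)
      exact dvd_pow_self p (by omega)
    exact hp.out.one_lt.ne' (Nat.dvd_one.1 h12)
  have hb' : (b : ℤ_[p]) ≠ 0 := by exact_mod_cast hb
  have hd' : (d : ℤ_[p]) ≠ 0 := by exact_mod_cast hd
  obtain ⟨a1, a2, a3, a4⟩ := a
  simp only [f, g] at e1 e2
  refine ⟨(a1 : ℚ_[p]), (a2 : ℚ_[p]), (a3 : ℚ_[p]), (a4 : ℚ_[p]), ?_, ?_, ?_⟩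
  · by_contra hc
    push Not at hc
    have c1 : a1 = 0 := Subtype.ext hc.1
    have c2 : a2 = 0 := Subtype.ext hc.2
    subst c1 c2
    have c3 : (d : ℤ_[p]) * a3 ^ 2 = 0 := by linear_combination -e1
    have c4 : (b : ℤ_[p]) * d * a4 ^ 2 = 0 := by linear_combination -e2
    have c5 : a3 = 0 := by
      rcases mul_eq_zero.1 c3 with h | h
      · exact absurd h hd'
      · exact pow_eq_zero_iff (two_ne_zero) |>.1 h
    have c6 : a4 = 0 := by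
      rcases mul_eq_zero.1 c4 with h | h
      · exact absurd h (mul_ne_zero hb' hd')
      · exact pow_eq_zero_iff (two_ne_zero) |>.1 h
    apply hne
    rw [c5, c6]
    rfl
  · have h3 : (b : ℤ_[p]) * a1 ^ 2 - (A : ℤ_[p]) * a2 ^ 2 = (d : ℤ_[p]) * a3 ^ 2 := by linear_combination e1
    have h4 := congrArg (fun z : ℤ_[p] => (z : ℚ_[p])) h3
    push_cast at h4
    exact h4
  · have h3 : (b : ℤ_[p]) * a1 ^ 2 - (B : ℤ_[p]) * a2 ^ 2 = (b : ℤ_[p]) * d * a4 ^ 2 := by linear_combination e2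
    have h4 := congrArg (fun z : ℤ_[p] => (z : ℚ_[p])) h3
    push_cast at h4
    exact h4

end Pool.Agent.TH841.AL.CPf
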