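import Mathlib
import Pool.Agent.TH841.AL.Stm

/-!
# AL-RL (job 5760, helper969): real points of the double covering and the finite sign test
-/

set_option autoImplicit false

namespace Pool.Agent.TH841.AL.RLf

open Pool.Agent.TH841.AL

private theorem abs_rel {A b : ℝ} (hb : b ≠ 0) (h : 0 ≤ A / b) : |A| = A / b * |b| := by
  rw [← abs_of_nonneg h, abs_div, div_mul_cancel₀ _ (abs_ne_zero.2 hb)]

private theorem cand0 {A B b d : ℤ} (hb : (b : ℝ) ≠ 0)
    (h1 : 0 ≤ (d : ℝ) * b * (0 - A / b)) (h2 : 0 ≤ (d : ℝ) * (0 - B / b)) : RealSol A B b d := by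
  refine ⟨0, 1, by omega, by omega, Or.inr one_ne_zero, ?_, ?_⟩
  · have h : (0 : ℝ) ≤ ((d * (b * ((0 : ℕ) : ℤ) - A * ((1 : ℕ) : ℤ)) : ℤ) : ℝ) := by
      have e : ((d * (b * ((0 : ℕ) : ℤ) - A * ((1 : ℕ) : ℤ)) : ℤ) : ℝ) =
          (d : ℝ) * b * (0 - A / b) := by
        push_cast
        field_simp
      rw [e]
      exact h1
    exact_mod_cast h
  · have h : (0 : ℝ) ≤ ((b * d * (b * ((0 : ℕ) : ℤ) - B * ((1 : ℕ) : ℤ)) : ℤ) : ℝ) := by
      have e : ((b * d * (b * ((0 : ℕ) : ℤ) - B * ((1 : ℕ) : ℤ)) : ℤ) : ℝ) =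
          (b : ℝ) ^ 2 * ((d : ℝ) * (0 - B / b)) := by
        push_cast
        field_simp
      rw [e]
      exact mul_nonneg (sq_nonneg _) h2
    exact_mod_cast h

private theorem candA {A B b d : ℤ} (hb : (b : ℝ) ≠ 0)
    (h0 : 0 ≤ (A : ℝ) / b) (h2 : 0 ≤ (d : ℝ) * (A / b - B / b)) : RealSol A B b d := by
  have hbz : b ≠ 0 := by exact_mod_cast hb
  have hA := abs_rel hb h0
  refine ⟨A.natAbs, b.natAbs, by omega, by omega, Or.inr (Int.natAbs_ne_zero.2 hbz), ?_, ?_⟩
  · have h : (0 : ℝ) ≤ ((d * (b * (A.natAbs : ℤ) - A * (b.natAbs : ℤ)) : ℤ) : ℝ) := by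
      have e : ((d * (b * (A.natAbs : ℤ) - A * (b.natAbs : ℤ)) : ℤ) : ℝ) = 0 := by
        push_cast [Int.natCast_natAbs, Int.cast_abs]
        rw [hA]
        field_simp
        ring
      rw [e]
    exact_mod_cast h
  · have h : (0 : ℝ) ≤ ((b * d * (b * (A.natAbs : ℤ) - B * (b.natAbs : ℤ)) : ℤ) : ℝ) := by
      have e : ((b * d * (b * (A.natAbs : ℤ) - B * (b.natAbs : ℤ)) : ℤ) : ℝ) =
          (b : ℝ) ^ 2 * |(b : ℝ)| * ((d : ℝ) * (A / b - B / b)) := by
        push_cast [Int.natCast_natAbs, Int.cast_abs]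
        rw [hA]
        field_simp
      rw [e]
      positivity
    exact_mod_cast h

private theorem candB {A B b d : ℤ} (hb : (b : ℝ) ≠ 0)
    (h0 : 0 ≤ (B : ℝ) / b) (h1 : 0 ≤ (d : ℝ) * b * (B / b - A / b)) : RealSol A B b d := by
  have hbz : b ≠ 0 := by exact_mod_cast hb
  have hB := abs_rel hb h0
  refine ⟨B.natAbs, b.natAbs, by omega, by omega, Or.inr (Int.natAbs_ne_zero.2 hbz), ?_, ?_⟩
  · have h : (0 : ℝ) ≤ ((d * (b * (B.natAbs : ℤ) - A * (b.natAbs : ℤ)) : ℤ) : ℝ) := by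
      have e : ((d * (b * (B.natAbs : ℤ) - A * (b.natAbs : ℤ)) : ℤ) : ℝ) =
          |(b : ℝ)| * ((d : ℝ) * b * (B / b - A / b)) := by
        push_cast [Int.natCast_natAbs, Int.cast_abs]
        rw [hB]
        field_simp
      rw [e]
      exact mul_nonneg (abs_nonneg _) h1
    exact_mod_cast h
  · have h : (0 : ℝ) ≤ ((b * d * (b * (B.natAbs : ℤ) - B * (b.natAbs : ℤ)) : ℤ) : ℝ) := by
      have e : ((b * d * (b * (B.natAbs : ℤ) - B * (b.natAbs : ℤ)) : ℤ) : ℝ) = 0 := by
        push_cast [Int.natCast_natAbs, Int.cast_abs]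
        rw [hB]
        field_simp
        ring
      rw [e]
    exact_mod_cast h

theorem rl : Pool.Agent.TH841.AL.RL := by
  intro A B b d hb hd
  have hbR : (b : ℝ) ≠ 0 := by exact_mod_cast hb
  have hdR : (d : ℝ) ≠ 0 := by exact_mod_cast hd
  constructor
  · rintro ⟨M, e, x, y, hne, h1, h2⟩
    by_cases he : e = 0
    · have hM : M ≠ 0 := hne.resolve_right (fun h => h he)
      have hM2 : 0 < M ^ 2 := by positivity
      rw [he] at h1 h2
      refine ⟨1, 0, by omega, by omega, Or.inl one_ne_zero, ?_, ?_⟩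
      · have h : (0 : ℝ) ≤ ((d * (b * ((1 : ℕ) : ℤ) - A * ((0 : ℕ) : ℤ)) : ℤ) : ℝ) := by
          push_cast
          have h3 : ((d : ℝ) * (b * 1 - A * 0)) * M ^ 2 = (d * x) ^ 2 := by
            have e1 : (d * x : ℝ) ^ 2 = d * (d * x ^ 2) := by ring
            rw [e1, ← h1]
            ring
          have h4 : 0 ≤ ((d : ℝ) * (b * 1 - A * 0)) * M ^ 2 := by rw [h3]; positivity
          exact nonneg_of_mul_nonneg_left h4 hM2
        exact_mod_cast h
      · have h : (0 : ℝ) ≤ ((b * d * (b * ((1 : ℕ) : ℤ) - B * ((0 : ℕ) : ℤ)) : ℤ) : ℝ) := by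
          push_cast
          have h3 : ((b : ℝ) * d * (b * 1 - B * 0)) * M ^ 2 = (b * d * y) ^ 2 := by
            have e1 : (b * d * y : ℝ) ^ 2 = b * d * (b * d * y ^ 2) := by ring
            rw [e1, ← h2]
            ring
          have h4 : 0 ≤ ((b : ℝ) * d * (b * 1 - B * 0)) * M ^ 2 := by rw [h3]; positivity
          exact nonneg_of_mul_nonneg_left h4 hM2
        exact_mod_cast h
    · have he2 : 0 < e ^ 2 := by positivity
      obtain ⟨X, hX⟩ : ∃ X : ℝ, X = M ^ 2 / e ^ 2 := ⟨_, rfl⟩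
      have hX0 : 0 ≤ X := by rw [hX]; positivity
      have hXe : M ^ 2 = X * e ^ 2 := by rw [hX, div_mul_cancel₀ _ he2.ne']
      obtain ⟨α, hα⟩ : ∃ α : ℝ, α = (A : ℝ) / b := ⟨_, rfl⟩
      obtain ⟨β, hβ⟩ : ∃ β : ℝ, β = (B : ℝ) / b := ⟨_, rfl⟩
      have hA : (A : ℝ) = b * α := by rw [hα]; field_simp
      have hB : (B : ℝ) = b * β := by rw [hβ]; field_simp
      have c1 : 0 ≤ (d : ℝ) * b * (X - α) := by
        have h3 : ((d : ℝ) * b * (X - α)) * e ^ 2 = (d * x) ^ 2 := by
          have e1 : (d * x : ℝ) ^ 2 = d * (d * x ^ 2) := by ring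
          rw [e1, ← h1, hXe, hA]
          ring
        have h4 : 0 ≤ ((d : ℝ) * b * (X - α)) * e ^ 2 := by rw [h3]; positivity
        exact nonneg_of_mul_nonneg_left h4 he2
      have c2 : 0 ≤ (d : ℝ) * (X - β) := by
        have h3 : ((d : ℝ) * (X - β)) * (e ^ 2 * b ^ 2) = (b * d * y) ^ 2 := by
          have e1 : (b * d * y : ℝ) ^ 2 = b * d * (b * d * y ^ 2) := by ring
          rw [e1, ← h2, hXe, hB]
          ring
        have h5 : 0 < e ^ 2 * (b : ℝ) ^ 2 := by positivity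
        have h4 : 0 ≤ ((d : ℝ) * (X - β)) * (e ^ 2 * b ^ 2) := by rw [h3]; positivity
        exact nonneg_of_mul_nonneg_left h4 h5
      have hdb : (d : ℝ) * b ≠ 0 := mul_ne_zero hdR hbR
      have k0 : 0 ≤ (d : ℝ) * b * (0 - α) → 0 ≤ (d : ℝ) * (0 - β) → RealSol A B b d := by
        intro g1 g2
        rw [hα] at g1
        rw [hβ] at g2
        exact cand0 hbR g1 g2
      have kA : 0 ≤ α → 0 ≤ (d : ℝ) * (α - β) → RealSol A B b d := by
        intro g1 g2
        rw [hα] at g1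
        rw [hα, hβ] at g2
        exact candA hbR g1 g2
      have kB : 0 ≤ β → 0 ≤ (d : ℝ) * b * (β - α) → RealSol A B b d := by
        intro g1 g2
        rw [hβ] at g1
        rw [hα, hβ] at g2
        exact candB hbR g1 g2
      rcases lt_or_gt_of_ne hdb with s1 | s1 <;> rcases lt_or_gt_of_ne hdR with s2 | s2
      · have a1 : X - α ≤ 0 := nonpos_of_mul_nonneg_right c1 s1
        have a2 : X - β ≤ 0 := nonpos_of_mul_nonneg_right c2 s2
        exact k0 (mul_nonneg_of_nonpos_of_nonpos s1.le (by linarith))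
          (mul_nonneg_of_nonpos_of_nonpos s2.le (by linarith))
      · have a1 : X - α ≤ 0 := nonpos_of_mul_nonneg_right c1 s1
        have a2 : 0 ≤ X - β := nonneg_of_mul_nonneg_right c2 s2
        rcases le_or_gt β 0 with g | g
        · exact k0 (mul_nonneg_of_nonpos_of_nonpos s1.le (by linarith))
            (mul_nonneg s2.le (by linarith))
        · exact kB g.le (mul_nonneg_of_nonpos_of_nonpos s1.le (by linarith))
      · have a1 : 0 ≤ X - α := nonneg_of_mul_nonneg_right c1 s1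
        have a2 : X - β ≤ 0 := nonpos_of_mul_nonneg_right c2 s2
        rcases le_or_gt α 0 with g | g
        · exact k0 (mul_nonneg s1.le (by linarith))
            (mul_nonneg_of_nonpos_of_nonpos s2.le (by linarith))
        · exact kA g.le (mul_nonneg_of_nonpos_of_nonpos s2.le (by linarith))
      · rcases le_total α β with g | g
        · rcases le_or_gt β 0 with g2 | g2
          · exact k0 (mul_nonneg s1.le (by linarith)) (mul_nonneg s2.le (by linarith))
          · exact kB g2.le (mul_nonneg s1.le (by linarith))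
        · rcases le_or_gt α 0 with g2 | g2
          · exact k0 (mul_nonneg s1.le (by linarith)) (mul_nonneg s2.le (by linarith))
          · exact kA g2.le (mul_nonneg s2.le (by linarith))
  · rintro ⟨s, r, -, -, hne, h1, h2⟩
    have h1R : (0 : ℝ) ≤ (d : ℝ) * (b * s - A * r) := by exact_mod_cast h1
    have h2R : (0 : ℝ) ≤ (b : ℝ) * d * (b * s - B * r) := by exact_mod_cast h2
    have q1 : 0 ≤ ((b : ℝ) * s - A * r) / d := by
      have e1 : ((b : ℝ) * s - A * r) / d = (d * (b * s - A * r)) / d ^ 2 := by field_simp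
      rw [e1]
      exact div_nonneg h1R (sq_nonneg _)
    have q2 : 0 ≤ ((b : ℝ) * s - B * r) / (b * d) := by
      have e1 : ((b : ℝ) * s - B * r) / (b * d) = (b * d * (b * s - B * r)) / (b * d) ^ 2 := by
        field_simp
      rw [e1]
      exact div_nonneg h2R (sq_nonneg _)
    refine ⟨Real.sqrt s, Real.sqrt r, Real.sqrt (((b : ℝ) * s - A * r) / d),
      Real.sqrt (((b : ℝ) * s - B * r) / (b * d)), ?_, ?_, ?_⟩
    · rcases hne with h | h
      · left
        rw [Real.sqrt_ne_zero (Nat.cast_nonneg s)]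
        exact_mod_cast h
      · right
        rw [Real.sqrt_ne_zero (Nat.cast_nonneg r)]
        exact_mod_cast h
    · rw [Real.sq_sqrt (Nat.cast_nonneg s), Real.sq_sqrt (Nat.cast_nonneg r), Real.sq_sqrt q1]
      field_simp
    · rw [Real.sq_sqrt (Nat.cast_nonneg s), Real.sq_sqrt (Nat.cast_nonneg r), Real.sq_sqrt q2]
      field_simp

end Pool.Agent.TH841.AL.RLf
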