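import Mathlib
import Pool.Agent.TH841.AL.Stm

/-!
AL-SC and AL-MN: rational points give primitive solutions modulo `m`; divisors of the modulus.
-/

set_option autoImplicit false

namespace Pool.Agent.TH841.AL.SCf

/-- reduction of an integral solution which is primitive at the divisors of `m` -/
private theorem reduce (A B b d : ℤ) (m : ℕ) (hm : 0 < m) (M e x y : ℤ)
    (h1 : (m : ℤ) ∣ b * M ^ 2 - A * e ^ 2 - d * x ^ 2)
    (h2 : (m : ℤ) ∣ b * M ^ 2 - B * e ^ 2 - b * d * y ^ 2)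
    (hp : ∀ p : ℕ, p.Prime → p ∣ m → (p : ℤ) ∣ M → (p : ℤ) ∣ e → (p : ℤ) ∣ x → (p : ℤ) ∣ y → False) :
    Pool.Agent.TH841.AL.ModSol A B b d m := by
  have hm0 : (0 : ℤ) < m := by exact_mod_cast hm
  have hc : ∀ z : ℤ, (((z % (m : ℤ)).toNat : ℕ) : ℤ) = z % (m : ℤ) := fun z =>
    Int.toNat_of_nonneg (Int.emod_nonneg _ hm0.ne')
  have hlt : ∀ z : ℤ, (z % (m : ℤ)).toNat < m := by
    intro z
    have h3 := Int.emod_lt_of_pos z hm0
    have h4 := hc z
    omega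
  have hdv : ∀ (z : ℤ) (p : ℕ), p ∣ m → p ∣ (z % (m : ℤ)).toNat → (p : ℤ) ∣ z := by
    intro z p hpm hpz
    have h3 : (p : ℤ) ∣ z % (m : ℤ) := by
      rw [← hc z]
      exact_mod_cast hpz
    have h4 : (p : ℤ) ∣ (m : ℤ) := by exact_mod_cast hpm
    have h5 : z = z % (m : ℤ) + (m : ℤ) * (z / (m : ℤ)) := (Int.emod_add_mul_ediv z m).symm
    rw [h5]
    exact dvd_add h3 (h4.mul_right _)
  have hmod : ∀ z : ℤ, (((z % (m : ℤ)).toNat : ℕ) : ℤ) ≡ z [ZMOD (m : ℤ)] := by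
    intro z
    rw [hc z]
    exact Int.mod_modEq z m
  refine ⟨(M % (m : ℤ)).toNat, (e % (m : ℤ)).toNat, (x % (m : ℤ)).toNat, (y % (m : ℤ)).toNat,
    hlt M, hlt e, hlt x, hlt y, ?_, ?_, ?_⟩
  · by_contra hne
    obtain ⟨p, hpp, hpd⟩ := Nat.exists_prime_and_dvd hne
    have q1 := hpd.trans (Nat.gcd_dvd_left _ _)
    have q2 := hpd.trans (Nat.gcd_dvd_right _ _)
    have q3 := q2.trans (Nat.gcd_dvd_left _ _)
    have q4 := q2.trans (Nat.gcd_dvd_right _ _)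
    exact hp p hpp q4 (hdv M p q4 (q1.trans (Nat.gcd_dvd_left _ _)))
      (hdv e p q4 (q1.trans (Nat.gcd_dvd_right _ _)))
      (hdv x p q4 (q3.trans (Nat.gcd_dvd_left _ _)))
      (hdv y p q4 (q3.trans (Nat.gcd_dvd_right _ _)))
  · rw [← Int.modEq_zero_iff_dvd] at h1 ⊢
    refine Int.ModEq.trans ?_ h1
    exact ((((hmod M).pow 2).mul_left b).sub (((hmod e).pow 2).mul_left A)).sub
      (((hmod x).pow 2).mul_left d)
  · rw [← Int.modEq_zero_iff_dvd] at h2 ⊢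
    refine Int.ModEq.trans ?_ h2
    exact ((((hmod M).pow 2).mul_left b).sub (((hmod e).pow 2).mul_left B)).sub
      (((hmod y).pow 2).mul_left (b * d))

theorem mn : Pool.Agent.TH841.AL.MN := by
  intro A B b d m n hmn hn hsol
  obtain ⟨M, e, x, y, -, -, -, -, hg, h1, h2⟩ := hsol
  have hm : 0 < m := Nat.pos_of_dvd_of_pos hmn hn
  have hmn' : (m : ℤ) ∣ (n : ℤ) := by exact_mod_cast hmn
  refine reduce A B b d m hm M e x y (hmn'.trans h1) (hmn'.trans h2) ?_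
  intro p hpp hpm hM he hx hy
  have q : p ∣ Nat.gcd (Nat.gcd M e) (Nat.gcd (Nat.gcd x y) n) := by
    refine Nat.dvd_gcd (Nat.dvd_gcd ?_ ?_) (Nat.dvd_gcd (Nat.dvd_gcd ?_ ?_) ?_)
    · exact_mod_cast hM
    · exact_mod_cast he
    · exact_mod_cast hx
    · exact_mod_cast hy
    · exact hpm.trans hmn
  rw [hg] at q
  exact hpp.one_lt.ne' (Nat.dvd_one.mp q)

theorem sc : Pool.Agent.TH841.AL.SC := by
  intro A B b d m hm hb hd hcov
  obtain ⟨M, e, x, y, hne, h1, h2⟩ := hcov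
  -- integers
  obtain ⟨D, hD⟩ : ∃ D : ℚ, D = (M.den : ℚ) * e.den * x.den * y.den := ⟨_, rfl⟩
  have hMd : (M.den : ℚ) ≠ 0 := by exact_mod_cast M.den_nz
  have hed : (e.den : ℚ) ≠ 0 := by exact_mod_cast e.den_nz
  have hxd : (x.den : ℚ) ≠ 0 := by exact_mod_cast x.den_nz
  have hyd : (y.den : ℚ) ≠ 0 := by exact_mod_cast y.den_nz
  have hD0 : D ≠ 0 := by rw [hD]; positivity
  obtain ⟨M', hM'⟩ : ∃ M' : ℤ, (M' : ℚ) = M * D := by
    refine ⟨M.num * (e.den * x.den * y.den), ?_⟩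
    push_cast
    rw [hD, show M * ((M.den : ℚ) * e.den * x.den * y.den) = (M * M.den) * (e.den * x.den * y.den) by
      ring, Rat.mul_den_eq_num]
  obtain ⟨e', he'⟩ : ∃ e' : ℤ, (e' : ℚ) = e * D := by
    refine ⟨e.num * (M.den * x.den * y.den), ?_⟩
    push_cast
    rw [hD, show e * ((M.den : ℚ) * e.den * x.den * y.den) = (e * e.den) * (M.den * x.den * y.den) by
      ring, Rat.mul_den_eq_num]
  obtain ⟨x', hx'⟩ : ∃ x' : ℤ, (x' : ℚ) = x * D := by
    refine ⟨x.num * (M.den * e.den * y.den), ?_⟩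
    push_cast
    rw [hD, show x * ((M.den : ℚ) * e.den * x.den * y.den) = (x * x.den) * (M.den * e.den * y.den) by
      ring, Rat.mul_den_eq_num]
  obtain ⟨y', hy'⟩ : ∃ y' : ℤ, (y' : ℚ) = y * D := by
    refine ⟨y.num * (M.den * e.den * x.den), ?_⟩
    push_cast
    rw [hD, show y * ((M.den : ℚ) * e.den * x.den * y.den) = (y * y.den) * (M.den * e.den * x.den) by
      ring, Rat.mul_den_eq_num]
  have hne' : M' ≠ 0 ∨ e' ≠ 0 := by
    rcases hne with h | h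
    · left
      intro h0
      rw [h0, Int.cast_zero] at hM'
      exact mul_ne_zero h hD0 hM'.symm
    · right
      intro h0
      rw [h0, Int.cast_zero] at he'
      exact mul_ne_zero h hD0 he'.symm
  have k1 : b * M' ^ 2 - A * e' ^ 2 = d * x' ^ 2 := by
    have : (b : ℚ) * (M' : ℚ) ^ 2 - (A : ℚ) * (e' : ℚ) ^ 2 = (d : ℚ) * (x' : ℚ) ^ 2 := by
      rw [hM', he', hx']
      linear_combination D ^ 2 * h1
    exact_mod_cast this
  have k2 : b * M' ^ 2 - B * e' ^ 2 = b * d * y' ^ 2 := by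
    have : (b : ℚ) * (M' : ℚ) ^ 2 - (B : ℚ) * (e' : ℚ) ^ 2 = (b : ℚ) * d * (y' : ℚ) ^ 2 := by
      rw [hM', he', hy']
      linear_combination D ^ 2 * h2
    exact_mod_cast this
  -- the greatest common divisor
  obtain ⟨g, hg⟩ : ∃ g : ℤ, g = gcd (gcd M' e') (gcd x' y') := ⟨_, rfl⟩
  have hgM : g ∣ M' := by rw [hg]; exact (gcd_dvd_left _ _).trans (gcd_dvd_left _ _)
  have hge : g ∣ e' := by rw [hg]; exact (gcd_dvd_left _ _).trans (gcd_dvd_right _ _)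
  have hgx : g ∣ x' := by rw [hg]; exact (gcd_dvd_right _ _).trans (gcd_dvd_left _ _)
  have hgy : g ∣ y' := by rw [hg]; exact (gcd_dvd_right _ _).trans (gcd_dvd_right _ _)
  have hg0 : g ≠ 0 := by
    intro h0
    rcases hne' with h | h
    · exact h (zero_dvd_iff.mp (h0 ▸ hgM))
    · exact h (zero_dvd_iff.mp (h0 ▸ hge))
  obtain ⟨M1, hM1⟩ := hgM
  obtain ⟨e1, he1⟩ := hge
  obtain ⟨x1, hx1⟩ := hgx
  obtain ⟨y1, hy1⟩ := hgy
  have hg2 : g ^ 2 ≠ 0 := pow_ne_zero 2 hg0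
  have l1 : b * M1 ^ 2 - A * e1 ^ 2 - d * x1 ^ 2 = 0 := by
    have : g ^ 2 * (b * M1 ^ 2 - A * e1 ^ 2 - d * x1 ^ 2) = 0 := by
      rw [hM1, he1, hx1] at k1
      linear_combination k1
    exact (mul_eq_zero.mp this).resolve_left hg2
  have l2 : b * M1 ^ 2 - B * e1 ^ 2 - b * d * y1 ^ 2 = 0 := by
    have : g ^ 2 * (b * M1 ^ 2 - B * e1 ^ 2 - b * d * y1 ^ 2) = 0 := by
      rw [hM1, he1, hy1] at k2
      linear_combination k2
    exact (mul_eq_zero.mp this).resolve_left hg2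
  refine reduce A B b d m hm M1 e1 x1 y1 (by rw [l1]; exact dvd_zero _)
    (by rw [l2]; exact dvd_zero _) ?_
  intro p hpp hpm hM he hx hy
  have q : g * (p : ℤ) ∣ g := by
    have q' : g * (p : ℤ) ∣ gcd (gcd M' e') (gcd x' y') := by
      refine dvd_gcd (dvd_gcd ?_ ?_) (dvd_gcd ?_ ?_)
      · rw [hM1]; exact mul_dvd_mul_left g hM
      · rw [he1]; exact mul_dvd_mul_left g he
      · rw [hx1]; exact mul_dvd_mul_left g hx
      · rw [hy1]; exact mul_dvd_mul_left g hy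
    rwa [← hg] at q'
  have q2 : (p : ℤ) ∣ 1 := by
    have : g * (p : ℤ) ∣ g * 1 := by rwa [mul_one]
    exact (mul_dvd_mul_iff_left hg0).mp this
  have q3 : p ∣ 1 := by exact_mod_cast q2
  exact hpp.one_lt.ne' (Nat.dvd_one.mp q3)

end Pool.Agent.TH841.AL.SCf
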