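import Mathlib
import Pool.Agent.TH841.AL.Comp
import Pool.Agent.TH841.AL.Rl
import Pool.Agent.TH841.AL.Cp
import Pool.Agent.TH841.AL.Sc
import Pool.Agent.TH841.FD.Covl

/-!
# Project AL: the recursively enumerable set
-/

set_option autoImplicit false

namespace Pool.Agent.TH841.AL

open Finset

open Pool.Agent.TH841.NO (SQ Qu sq_finite)

open Pool.Agent.TH841.FD (LF)

open Pool.Agent.Helper446 Pool.Agent.W960.GA

/-- the coefficient lists of `y² - (b x⁴ - s x² + q)` -/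
def lst (s q b : ℤ) : List (List ℤ) := [[-q, 0, 1], [], [s], [], [-b]]

/-- the zeros in the rational plane -/
def Zr (L : List (List ℤ)) : Set (ℚ × ℚ) := {p : ℚ × ℚ |
  ∑ i ∈ Finset.range L.length, ∑ j ∈ Finset.range (L.getD i []).length,
    (((L.getD i []).getD j 0 : ℤ) : ℚ) * p.1 ^ i * p.2 ^ j = 0}

lemma zr_lst (s q b : ℤ) (p : ℚ × ℚ) :
    p ∈ Zr (lst s q b) ↔ p.2 ^ 2 = b * p.1 ^ 4 - s * p.1 ^ 2 + q := by
  unfold Zr lst
  simp only [Set.mem_setOf_eq, List.length_cons, List.length_nil, Finset.sum_range_succ,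
    Finset.sum_range_zero, List.getD_cons_zero, List.getD_cons_succ]
  constructor
  · intro h
    push_cast at h
    linear_combination h
  · intro h
    push_cast
    linear_combination h

/-- the search condition -/
def Pc (L : List (List ℤ)) (c : (ℤ × ℤ × ℤ × ℤ) × ℕ) : Prop :=
  L = lst (c.1.1 + c.1.2.1) c.1.2.2.1 c.1.2.2.2 ∧ c.1.1 * c.1.2.1 = c.1.2.2.2 * c.1.2.2.1 ∧
  Squarefree c.1.2.2.2.natAbs ∧ ¬ c.2 = 0 ∧
  (2 * c.1.1 * c.1.2.1 * (c.1.1 - c.1.2.1) ≠ 0 ∧ Check c.1.1 c.1.2.1 c.1.2.2.2 c.2)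

/-- the recursively enumerable predicate -/
def P (L : List (List ℤ)) : Prop := ∃ c : (ℤ × ℤ × ℤ × ℤ) × ℕ, Pc L c

attribute [local fun_prop] ciadd cisub cimul cineg cicast citoNat cinatAbs cmod

theorem re_P : REPred P := by
  refine RE.ex (p := Pc) (ComputablePred.to_re ?_)
  refine cp_and (RE.cp_eq (by fun_prop) ?_) (cp_and (RE.cp_eq (by fun_prop) (by fun_prop))
    (cp_and (cp_sqf (by fun_prop)) (cp_and (cp_not (RE.cp_eq (by fun_prop) (by fun_prop))) ?_)))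
  · unfold lst
    fun_prop
  · apply cp_check <;> fun_prop

/-- **soundness** -/
theorem P_sound (L : List (List ℤ)) (h : P L) : Zr L = ∅ := by
  obtain ⟨⟨⟨A, B, q, b⟩, m⟩, hL, hq, hb, hm, hn, hc⟩ := h
  simp only at hL hq hb hm hn hc
  have hb' : Squarefree b := Int.squarefree_natAbs.1 hb
  have hA : A ≠ 0 := by
    rintro rfl
    simp at hn
  have hB : B ≠ 0 := by
    rintro rfl
    simp at hn
  have hAB : A ≠ B := by
    rintro rfl
    simp at hn
  have hd : b ∣ A * B := ⟨q, hq⟩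
  have hqq : A * B / b = q := by rw [hq, Int.mul_ediv_cancel_left _ hb'.ne_zero]
  have hs := sound FD.COVLf.covl RLf.rl SCf.sc hA hB hAB hb' hd (Nat.pos_of_ne_zero hm) hc
  rw [Set.eq_empty_iff_forall_notMem]
  intro p hp
  rw [hL, zr_lst] at hp
  apply hs
  refine ⟨p.2, p.1, 1, Or.inr one_ne_zero, ?_⟩
  rw [hqq, hp]
  push_cast
  ring

/-- **completeness** -/
theorem P_complete {A B b : ℤ} (hA : A ≠ 0) (hB : B ≠ 0) (hAB : A ≠ B) (hb : Squarefree b)
    (hd : b ∣ A * B) (h : b ∉ LF A B) : P (lst (A + B) (A * B / b) b) := by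
  obtain ⟨m, hm, hc⟩ := complete RLf.rl CPf.cp SCf.mn hA hB hAB hb hd h
  refine ⟨⟨⟨A, B, A * B / b, b⟩, m⟩, rfl, ?_, Int.squarefree_natAbs.2 hb, hm.ne', ?_, hc⟩
  · exact (Int.mul_ediv_cancel' hd).symm
  · exact mul_ne_zero (mul_ne_zero (mul_ne_zero two_ne_zero hA) hB) (sub_ne_zero.2 hAB)

theorem undecided_le {A B : ℤ} (hA : A ≠ 0) (hB : B ≠ 0) (hAB : A ≠ B) :
    {b : ℤ | b ∈ SQ (-(A + B)) (A * B) ∧ ¬ P (lst (A + B) (A * B / b) b)}.ncard ≤
      (LF A B).ncard := by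
  refine Set.ncard_le_ncard ?_ ((sq_finite (mul_ne_zero hA hB)).subset fun b h => h.1)
  rintro b ⟨h1, h2⟩
  by_contra h3
  exact h2 (P_complete hA hB hAB h1.1 h1.2.1 h3)

end Pool.Agent.TH841.AL
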